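import Pool.Agent.H180.PG.Stm

/-!
# Project PG (helper180), job PG-Gen: the projectional generator
-/

set_option autoImplicit false

open Set Topology

namespace Pool.Agent.Q181.PG

open Pool.Agent.H180.PG

section

variable {Γ : Type} [SemilatticeInf Γ] [WellFoundedLT Γ]

/-- least elements above a point -/
theorem exists_least {D : Set Γ} (hD : InfClosed D) (t : Γ) (h : ∃ d ∈ D, t ≤ d) :
    ∃ d ∈ D, t ≤ d ∧ ∀ d' ∈ D, t ≤ d' → d ≤ d' := by
  obtain ⟨d, ⟨hd, htd⟩, hmin⟩ := (wellFounded_lt (α := Γ)).has_min {d | d ∈ D ∧ t ≤ d} h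
  refine ⟨d, hd, htd, fun d' hd' htd' => ?_⟩
  by_contra hcon
  apply hmin (d ⊓ d') ⟨hD hd hd', le_inf htd htd'⟩
  refine lt_of_le_of_ne inf_le_left fun h => hcon ?_
  rw [← h]
  exact inf_le_right

/-- the elements of the determining set below a point where the functional is not zero -/
def SS (E : Set Γ) (φ : Γ → ℝ) : Set Γ := {d | d ∈ E ∧ ∃ m, d ≤ m ∧ φ m ≠ 0}

/-- (2): the union of the sets determines every functional -/
theorem det_union {E D : Set Γ} {φ : Γ → ℝ} (hE : InfClosed E) (hdet : Det E φ)
    (hsub : SS E φ ⊆ D) : Det D φ := by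
  have key : ∀ t, φ t ≠ 0 → ∃ x ∈ D, t ≤ x ∧ x ∈ E ∧ φ x = φ t ∧ ∀ x' ∈ E, t ≤ x' → x ≤ x' := by
    intro t ht
    have hex : ∃ x ∈ E, t ≤ x := by
      by_contra hcon
      push Not at hcon
      exact ht (hdet.2 t hcon)
    obtain ⟨x, hx, htx, hmin⟩ := exists_least hE t hex
    have h1 : φ t = φ x := hdet.1 t x hx htx hmin
    refine ⟨x, hsub ⟨hx, x, le_rfl, by rw [← h1]; exact ht⟩, htx, hx, h1.symm, hmin⟩
  constructor
  · intro t d hd htd hmin
    by_cases ht : φ t = 0
    · by_contra hne
      have hd0 : φ d ≠ 0 := by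
        intro h
        apply hne
        rw [ht, h]
      obtain ⟨y, hyD, hdy, hyE, hy, hymin⟩ := key d hd0
      obtain ⟨x, hx, htx, hxmin⟩ := exists_least hE t ⟨y, hyE, htd.trans hdy⟩
      have hxy : x ≤ y := hxmin y hyE (htd.trans hdy)
      have hxD : x ∈ D := hsub ⟨hx, y, hxy, by rw [hy]; exact hd0⟩
      have hdx : d ≤ x := hmin x hxD htx
      have h1 : φ d = φ x := hdet.1 d x hx hdx fun x' hx' hdx' => hxmin x' hx' (htd.trans hdx')
      have h2 : φ t = φ x := hdet.1 t x hx htx hxmin
      apply hne
      rw [h1, h2]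
    · obtain ⟨x, hxD, htx, hxE, hx, hxmin⟩ := key t ht
      have hdx : d ≤ x := hmin x hxD htx
      have h1 : φ d = φ x := hdet.1 d x hxE hdx fun x' hx' hdx' => hxmin x' hx' (htd.trans hdx')
      rw [h1, hx]
  · intro t hno
    by_contra ht
    obtain ⟨x, hxD, htx, -, -, -⟩ := key t ht
    exact hno x hxD htx

/-- two numbers which are avoided -/
theorem exists_avoid (a b a' b' : ℝ) (ha : a ≠ 0) (hb' : b' ≠ 0) :
    ∃ c : ℝ, a + c * b ≠ 0 ∧ a' + c * b' ≠ 0 := by
  by_contra hcon
  push Not at hcon
  have h0 : a' = 0 := by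
    have h := hcon 0 (by simpa using ha)
    simpa using h
  have h1 : a + b = 0 := by
    by_contra h
    have h2 := hcon 1 (by simpa using h)
    apply hb'
    simpa [h0] using h2
  have h2 : a + 2 * b = 0 := by
    by_contra h
    have h3 := hcon 2 h
    apply hb'
    rw [h0, zero_add] at h3
    linarith
  apply ha
  linarith

end

theorem co_add_smul {Γ : Type} (f g : StrongDual ℝ (L1 Γ)) (c : ℝ) (γ : Γ) :
    co (f + c • g) γ = co f γ + c * co g γ := by
  unfold co
  simp

theorem gen : S_Gen := by
  classical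
  intro hL1 Γ _ _ hchain Y hY hnorm
  obtain ⟨ha, hb, -, -⟩ := hL1 Γ
  have hBig : ∀ f ∈ Big Γ, ∃ D : Set Γ, D.Countable ∧ InfClosed D ∧ Det D (co f) := fun f hf => hf
  choose! D' hDc hDi hDd using hBig
  refine ⟨fun f => (fun γ => e γ) '' SS (D' f) (co f), hnorm, ?_, ?_⟩
  · intro f hf
    exact ((hDc f (hY hf)).mono fun d hd => hd.1).image _
  · intro A hA hZ
    obtain ⟨Z, hZ⟩ := hZ
    set Φ : StrongDual ℝ (L1 Γ) → Set (L1 Γ) := fun f => (fun γ => e γ) '' SS (D' f) (co f) with hΦ
    have hAB : ∀ f ∈ A, f ∈ Big Γ := fun f hf => hY (hA hf)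
    have hAZ : ∀ f ∈ A, f ∈ Z := by
      intro f hf
      have h : f ∈ closure A := subset_closure hf
      rw [← hZ] at h
      exact h
    -- (1) the union is closed under meets
    set D : Set Γ := ⋃ f ∈ A, SS (D' f) (co f) with hDdef
    have hmemD : ∀ d, d ∈ D ↔ ∃ f ∈ A, d ∈ SS (D' f) (co f) := by
      intro d
      simp [hDdef]
    have hDinf : InfClosed D := by
      intro d hd d' hd'
      by_cases h1 : d ≤ d'
      · rw [inf_eq_left.2 h1]
        exact hd
      by_cases h2 : d' ≤ d
      · rw [inf_eq_right.2 h2]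
        exact hd'
      obtain ⟨f, hf, -, m, hdm, hm⟩ := (hmemD d).1 hd
      obtain ⟨f', hf', -, m', hdm', hm'⟩ := (hmemD d').1 hd'
      obtain ⟨c, hc1, hc2⟩ := exists_avoid (co f m) (co f' m) (co f m') (co f' m') hm hm'
      have hz : f + c • f' ∈ closure A := by
        rw [← hZ]
        exact Z.add_mem (hAZ f hf) (Z.smul_mem c (hAZ f' hf'))
      have hopen : IsOpen {g : StrongDual ℝ (L1 Γ) | co g m ≠ 0 ∧ co g m' ≠ 0} := by
        apply IsOpen.inter
        · have hcont : Continuous fun g : StrongDual ℝ (L1 Γ) => g (e m) := by fun_prop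
          exact isOpen_ne.preimage hcont
        · have hcont : Continuous fun g : StrongDual ℝ (L1 Γ) => g (e m') := by fun_prop
          exact isOpen_ne.preimage hcont
      obtain ⟨a, ⟨ham, ham'⟩, haA⟩ := mem_closure_iff.1 hz _ hopen
        ⟨by rw [co_add_smul]; exact hc1, by rw [co_add_smul]; exact hc2⟩
      have haB := hAB a haA
      have hfind : ∀ m, co a m ≠ 0 → ∃ x ∈ D' a, m ≤ x ∧ co a x ≠ 0 := by
        intro m hm
        have hex : ∃ x ∈ D' a, m ≤ x := by
          by_contra hcon
          push Not at hcon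
          exact hm ((hDd a haB).2 m hcon)
        obtain ⟨x, hx, hmx, hmin⟩ := exists_least (hDi a haB) m hex
        refine ⟨x, hx, hmx, ?_⟩
        rw [← (hDd a haB).1 m x hx hmx hmin]
        exact hm
      obtain ⟨x, hx, hmx, hax⟩ := hfind m ham
      obtain ⟨x', hx', hmx', -⟩ := hfind m' ham'
      have hmem : x ⊓ x' ∈ D := (hmemD _).2 ⟨a, haA, hDi a haB hx hx', x, inf_le_left, hax⟩
      have hdx : d ≤ x := hdm.trans hmx
      have hdx' : d' ≤ x' := hdm'.trans hmx'
      have heq : x ⊓ x' = d ⊓ d' := by
        apply le_antisymm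
        · apply le_inf
          · rcases hchain (x ⊓ x') d x inf_le_left hdx with h | h
            · exact h
            · exfalso
              rcases hchain d d' x' (h.trans inf_le_right) hdx' with h3 | h3
              · exact h1 h3
              · exact h2 h3
          · rcases hchain (x ⊓ x') d' x' inf_le_right hdx' with h | h
            · exact h
            · exfalso
              rcases hchain d d' x hdx (h.trans inf_le_left) with h3 | h3
              · exact h1 h3
              · exact h2 h3
        · exact inf_le_inf hdx hdx'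
      rw [← heq]
      exact hmem
    -- (2)
    have hdetA : ∀ f ∈ A, Det D (co f) := by
      intro f hf
      apply det_union (hDi f (hAB f hf)) (hDd f (hAB f hf))
      intro d hd
      exact (hmemD d).2 ⟨f, hf, hd⟩
    -- (3)
    apply Subset.antisymm
    · rintro g ⟨hg0, hg⟩
      have hclosed : ∀ (u v : L1 Γ), (∀ f ∈ A, f u = f v) → g u = g v := by
        intro u v huv
        have hc : IsClosed {h : WeakDual ℝ (L1 Γ) | h u = h v} :=
          isClosed_eq (WeakDual.eval_continuous u) (WeakDual.eval_continuous v)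
        have hs : closure (StrongDual.toWeakDual '' A) ⊆ {h : WeakDual ℝ (L1 Γ) | h u = h v} := by
          apply closure_minimal _ hc
          rintro _ ⟨f, hf, rfl⟩
          exact huv f hf
        exact hs hg
      have hco : ∀ t, co g t = 0 := by
        intro t
        by_cases hex : ∃ d ∈ D, t ≤ d
        · obtain ⟨d, hd, htd, hmin⟩ := exists_least hDinf t hex
          have h1 : g (e t) = g (e d) := hclosed _ _ fun f hf => (hdetA f hf).1 t d hd htd hmin
          obtain ⟨f, hf, hdf⟩ := (hmemD d).1 hd
          have h2 : g (e d) = 0 := by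
            apply hg0
            unfold img
            simp only [mem_iUnion]
            exact ⟨f, hf, d, hdf, rfl⟩
          unfold co
          rw [h1, h2]
        · push Not at hex
          have h1 : g (e t) = g 0 := by
            apply hclosed
            intro f hf
            have h2 : f (e t) = 0 := (hdetA f hf).2 t hex
            rw [h2, map_zero]
          unfold co
          rw [h1, map_zero]
      rw [mem_singleton_iff]
      ext x
      rw [ha g x fun γ _ => hco γ]
      rfl
    · intro g hg
      rw [mem_singleton_iff] at hg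
      rw [hg]
      refine ⟨fun x _ => rfl, ?_⟩
      have h0 : (0 : StrongDual ℝ (L1 Γ)) ∈ closure A := by
        rw [← hZ]
        exact Z.zero_mem
      have hcont : Continuous (StrongDual.toWeakDual : StrongDual ℝ (L1 Γ) → WeakDual ℝ (L1 Γ)) :=
        NormedSpace.Dual.toWeakDual_continuous
      exact image_closure_subset_closure_image hcont ⟨0, h0, rfl⟩

end Pool.Agent.Q181.PG
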